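import Mathlib

/-!
Cochains on lists with values in a field of characteristic two: coboundary, prism operator,
the operator `θ = ∑ wᵢ (1 + Tᵢ)` and the abstract chain argument of Dold type.
-/

namespace Pool.Agent.WG

variable {Y Z F : Type} [Field F]

/-- coboundary -/
def cob : List Y → (List Y → F) → F
  | [], _ => 0
  | x :: t, f => f t + cob t (fun s => f (x :: s))

/-- prism operator between `u` and `v` -/
def pri (u v : Y → Y) : List Y → (List Y → F) → F
  | [], _ => 0
  | x :: t, f => f (u x :: v x :: t.map v) + pri u v t (fun s => f (u x :: s))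

theorem cob_add (t : List Y) (f g : List Y → F) :
    cob t (fun s => f s + g s) = cob t f + cob t g := by
  induction t generalizing f g with
  | nil => simp [cob]
  | cons x t ih => simp only [cob]; rw [ih]; ring

theorem pri_add (u v : Y → Y) (t : List Y) (f g : List Y → F) :
    pri u v t (fun s => f s + g s) = pri u v t f + pri u v t g := by
  induction t generalizing f g with
  | nil => simp [pri]
  | cons x t ih => simp only [pri]; rw [ih]; ring

theorem cob_mul (t : List Y) (c : F) (f : List Y → F) :
    cob t (fun s => c * f s) = c * cob t f := by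
  induction t generalizing f with
  | nil => simp [cob]
  | cons x t ih => simp only [cob]; rw [ih]; ring

theorem cob_zero (t : List Y) : cob t (fun _ => (0 : F)) = 0 := by
  induction t with
  | nil => simp [cob]
  | cons x t ih => simp only [cob]; rw [ih]; ring

theorem cob_sum {ι : Type} (A : Finset ι) (t : List Y) (f : ι → List Y → F) :
    cob t (fun s => ∑ i ∈ A, f i s) = ∑ i ∈ A, cob t (f i) := by
  classical
  induction A using Finset.induction_on with
  | empty => simpa using cob_zero t
  | insert a A ha ih => simp only [Finset.sum_insert ha]; rw [cob_add, ih]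

theorem cob_map (u : Y → Z) (t : List Y) (f : List Z → F) :
    cob (t.map u) f = cob t (fun s => f (s.map u)) := by
  induction t generalizing f with
  | nil => simp [cob]
  | cons x t ih => simp only [cob, List.map_cons]; rw [ih]

theorem cob_congr (t : List Y) (f g : List Y → F)
    (h : ∀ s : List Y, (∀ y ∈ s, y ∈ t) → f s = g s) : cob t f = cob t g := by
  induction t generalizing f g with
  | nil => simp [cob]
  | cons x t ih =>
    simp only [cob]
    rw [h t (fun y hy => List.mem_cons_of_mem _ hy), ih]
    intro s hs
    refine h _ (fun y hy => ?_)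
    rcases List.mem_cons.1 hy with rfl | hy
    · simp
    · exact List.mem_cons_of_mem _ (hs y hy)

theorem two_eq (h2 : (2 : F) = 0) (a : F) : a + a = 0 := by
  rw [← two_mul, h2, zero_mul]

theorem cob_cob (h2 : (2 : F) = 0) (t : List Y) (f : List Y → F) :
    cob t (fun s => cob s f) = 0 := by
  induction t generalizing f with
  | nil => simp [cob]
  | cons x t ih =>
    simp only [cob]
    rw [cob_add, ih, add_zero, two_eq h2]

theorem pri_cob (h2 : (2 : F) = 0) (u v : Y → Y) (t : List Y) (f : List Y → F) :
    pri u v t (fun s => cob s f) + cob t (fun s => pri u v s f)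
      = f (t.map u) + f (t.map v) := by
  induction t generalizing f with
  | nil => simp [pri, cob, two_eq h2]
  | cons x t ih =>
    simp only [pri, cob, List.map_cons]
    rw [pri_add, cob_add, cob_map]
    have h := ih (fun s => f (u x :: s))
    have h1 := two_eq h2 (pri u v t f)
    have h3 := two_eq h2 (cob t (fun s => f (u x :: v x :: s.map v)))
    have h4 := two_eq h2 (f (u x :: t.map v))
    linear_combination h + h1 + h3 + h4

theorem pri_zero (u v : Y → Y) (t : List Y) (f : List Y → F)
    (hf : ∀ s : List Y, s.length = t.length + 1 →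
      (∀ y ∈ s, ∃ x ∈ t, y = u x ∨ y = v x) → f s = 0) : pri u v t f = 0 := by
  induction t generalizing f with
  | nil => simp [pri]
  | cons x t ih =>
    simp only [pri]
    rw [hf, ih, add_zero]
    · intro s hs hy
      refine hf _ (by simp [hs]) ?_
      intro y hy'
      rcases List.mem_cons.1 hy' with rfl | hy'
      · exact ⟨x, by simp, Or.inl rfl⟩
      · obtain ⟨z, hz, h⟩ := hy y hy'
        exact ⟨z, by simp [hz], h⟩
    · simp
    · intro y hy
      rcases List.mem_cons.1 hy with rfl | hy
      · exact ⟨x, by simp, Or.inl rfl⟩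
      rcases List.mem_cons.1 hy with rfl | hy
      · exact ⟨x, by simp, Or.inr rfl⟩
      · obtain ⟨z, hz, rfl⟩ := List.mem_map.1 hy
        exact ⟨z, by simp [hz], Or.inr rfl⟩

variable {ι : Type} [Fintype ι]

/-- `θ = ∑ wᵢ (1 + Tᵢ)` -/
def th (T : ι → Y → Y) (w : ι → F) (f : List Y → F) (l : List Y) : F :=
  ∑ i, w i * (f l + f (l.map (T i)))

theorem th_add (T : ι → Y → Y) (w : ι → F) (f g : List Y → F) (l : List Y) :
    th T w (fun s => f s + g s) l = th T w f l + th T w g l := by
  simp only [th, ← Finset.sum_add_distrib]
  exact Finset.sum_congr rfl fun i _ => by ring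

theorem th_cob (T : ι → Y → Y) (w : ι → F) (f : List Y → F) (l : List Y) :
    th T w (fun s => cob s f) l = cob l (th T w f) := by
  unfold th
  rw [cob_sum]
  refine Finset.sum_congr rfl fun i _ => ?_
  rw [cob_mul, cob_add]
  simp only [cob_map]

theorem sym_sum (h2 : (2 : F) = 0) (f : ι → ι → F) (hs : ∀ i j, f i j = f j i)
    (hd : ∀ i, f i i = 0) : ∑ i, ∑ j, f i j = 0 := by
  classical
  rw [← Fintype.sum_prod_type']
  refine Finset.sum_involution (fun p _ => p.swap) ?_ ?_ (by simp) (by simp)
  · intro p _
    simp only [Prod.fst_swap, Prod.snd_swap]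
    rw [hs p.2 p.1, two_eq h2]
  · intro p _ hp e
    apply hp
    have : p.2 = p.1 := congrArg Prod.fst e
    rw [this, hd]

theorem th_th (h2 : (2 : F) = 0) (T : ι → Y → Y) (hT : ∀ i y, T i (T i y) = y)
    (hc : ∀ i j y, T i (T j y) = T j (T i y)) (w : ι → F) (f : List Y → F) (l : List Y) :
    th T w (th T w f) l = 0 := by
  have e : th T w (th T w f) l = ∑ i, ∑ j, w i * w j *
      (f l + f (l.map (T j)) + f (l.map (T i)) + f ((l.map (T i)).map (T j))) := by
    simp only [th, ← Finset.sum_add_distrib, Finset.mul_sum]
    exact Finset.sum_congr rfl fun i _ => Finset.sum_congr rfl fun j _ => by ring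
  rw [e]
  refine sym_sum h2 _ (fun i j => ?_) (fun i => ?_)
  · have : (l.map (T i)).map (T j) = (l.map (T j)).map (T i) := by
      simp only [List.map_map]; exact List.map_congr_left fun y _ => hc j i y
    rw [this]; ring
  · have : (l.map (T i)).map (T i) = l := by
      simp only [List.map_map]
      exact (List.map_congr_left fun y _ => hT i y).trans (List.map_id _)
    rw [this]
    linear_combination w i * w i * (f l + f (l.map (T i))) * h2

/-- The chain argument. -/
theorem core (h2 : (2 : F) = 0) (T : ι → Y → Y) (hT : ∀ i y, T i (T i y) = y)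
    (hc : ∀ i j y, T i (T j y) = T j (T i y)) (w : ι → F) (N : ℕ) (Good : ℕ → List Y → Prop)
    (hG : ∀ k i l, Good k l → Good k (l.map (T i)))
    (H : ℕ → (List Y → F) → List Y → F)
    (hHa : ∀ k f g l, H k (fun s => f s + g s) l = H k f l + H k g l)
    (hH : ∀ k < N, ∀ f l, Good k l → H k (fun s => cob s f) l + cob l (H k f) = f l)
    (hHs : ∀ k < N, ∀ f, (∀ l, Good (k + 1) l → f l = 0) → ∀ l, Good k l → H k f l = 0)
    (φ g : ℕ → List Y → F) (hφ : ∀ k l, φ (k + 1) l = cob l (g k))
    (hg : ∀ k l, Good k l → th T w (g k) l = φ k l) (p : Y) (hp : Good 0 [p])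
    (h0 : φ 0 [p] = 1) : ∃ l, Good N l ∧ φ N l ≠ 0 := by
  have main : ∀ k ≤ N, ∃ c : (List Y → F) → F,
      (∀ f g, c (fun s => f s + g s) = c f + c g) ∧
      (∀ f, (∀ l, Good k l → f l = 0) → c f = 0) ∧
      (∀ f, c (th T w (fun s => cob s f)) = 0) ∧ c (φ k) = 1 := by
    intro k
    induction k with
    | zero =>
      intro _
      refine ⟨fun f => f [p], fun _ _ => rfl, fun f hf => hf _ hp, fun f => ?_, h0⟩
      simp [th, cob, two_eq h2]
    | succ k ih =>
      intro hk
      obtain ⟨c, ca, cs, cz, c1⟩ := ih (by omega)
      have cc : ∀ f g, (∀ l, Good k l → f l = g l) → c f = c g := by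
        intro f g h
        have := cs (fun s => f s + g s) (fun l hl => by rw [h l hl, two_eq h2])
        rw [ca] at this
        linear_combination this - c g * h2
      have tc : ∀ f g, (∀ l, Good k l → f l = g l) → c (th T w f) = c (th T w g) := by
        intro f g h
        refine cc _ _ fun l hl => Finset.sum_congr rfl fun i _ => ?_
        rw [h l hl, h _ (hG k i l hl)]
      have key : ∀ f, c (th T w (H k (fun s => cob s f))) = c (th T w f) := by
        intro f
        rw [← tc _ _ (hH k (by omega) f)]
        have e : th T w (fun l => H k (fun s => cob s f) l + cob l (H k f)) = fun l =>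
            th T w (H k (fun s => cob s f)) l + th T w (fun s => cob s (H k f)) l :=
          funext fun l => th_add T w _ _ l
        rw [e, ca, cz, add_zero]
      refine ⟨fun f => c (th T w (H k f)), fun f g => ?_, fun f hf => ?_, fun f => ?_, ?_⟩
      · have e : H k (fun s => f s + g s) = fun l => H k f l + H k g l :=
          funext fun l => hHa k f g l
        have e' : th T w (fun l => H k f l + H k g l) = fun l =>
            th T w (H k f) l + th T w (H k g) l := funext fun l => th_add T w _ _ l
        simp only [e, e', ca]
      · refine cs _ fun l hl => Finset.sum_eq_zero fun i _ => ?_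
        rw [hHs k (by omega) f hf l hl, hHs k (by omega) f hf _ (hG k i l hl)]; ring
      · have e : th T w (fun s => cob s f) = fun s => cob s (th T w f) :=
          funext fun l => th_cob T w f l
        simp only [e]
        rw [key]
        exact cs _ fun l _ => th_th h2 T hT hc w f l
      · have e : φ (k + 1) = fun s => cob s (g k) := funext (hφ k)
        simp only [e]
        rw [key, cc _ _ (hg k), c1]
  obtain ⟨c, -, cs, -, c1⟩ := main N le_rfl
  by_contra hn
  push Not at hn
  rw [cs _ hn] at c1
  exact zero_ne_one c1

end Pool.Agent.WG
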