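import Pool.Agent.Lib.MP_edf429_lc.WG.Sph

/-!
Equivariant matrix functions for the Pauli action of `(ℤ/2)^4` on real `4 × 4` matrices.
-/

namespace Pool.Agent.WG

open Matrix

/-- index set of the matrices -/
abbrev I := ZMod 2 × ZMod 2

/-- the acting group -/
abbrev V := Fin 4 → ZMod 2

/-- real matrices -/
abbrev Mat := Matrix I I ℝ

/-- dot product -/
def dot (b x : I) : ZMod 2 := b.1 * x.1 + b.2 * x.2

/-- translation part -/
def ga (g : V) : I := (g 0, g 1)

/-- character part -/
def gb (g : V) : I := (g 2, g 3)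

theorem dot_add (b x y : I) : dot b (x + y) = dot b x + dot b y := by
  simp only [dot, Prod.fst_add, Prod.snd_add]; ring

theorem add_dot (b c x : I) : dot (b + c) x = dot b x + dot c x := by
  simp only [dot, Prod.fst_add, Prod.snd_add]; ring

theorem I_self (x : I) : x + x = 0 := by revert x; decide

/-- conjugation by a Pauli matrix -/
def cf (g : V) (M : Mat) : Mat := fun x y => sg (dot (gb g) (x + y)) * M (x + ga g) (y + ga g)

theorem cf_mul (g : V) (M M' : Mat) : cf g (M * M') = cf g M * cf g M' := by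
  ext x z
  simp only [cf, mul_apply, Finset.mul_sum]
  rw [← Equiv.sum_comp (Equiv.addRight (ga g))]
  refine Finset.sum_congr rfl fun y _ => ?_
  have : x + z = (x + y) + (y + z) := by
    rw [show x + y + (y + z) = x + z + (y + y) by ring, I_self, add_zero]
  rw [this, dot_add, sg_add]
  simp only [Equiv.coe_addRight]
  ring

theorem cf_one (g : V) : cf g 1 = 1 := by
  ext x y
  simp only [cf, one_apply, add_left_inj]
  split_ifs with h
  · subst h; simp [I_self, dot]
  · simp

/-- conjugation by a Pauli matrix as a ring homomorphism -/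
def cj (g : V) : Mat →+* Mat where
  toFun := cf g
  map_one' := cf_one g
  map_mul' := cf_mul g
  map_zero' := by ext x y; simp [cf]
  map_add' M M' := by ext x y; simp [cf, mul_add]

theorem cj_smul (g : V) (c : ℝ) (M : Mat) : cj g (c • M) = c • cj g M := by
  ext x y; simp [cj, cf]; ring

theorem cj_zero (M : Mat) : cj 0 M = M := by
  ext x y; simp [cj, cf, ga, gb, dot, Prod.mk_zero_zero]

theorem cj_cj (g h : V) (M : Mat) : cj g (cj h M) = cj (h + g) M := by
  ext x y
  have e1 : gb (h + g) = gb h + gb g := rfl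
  have e2 : ga (h + g) = ga h + ga g := rfl
  have e3 : x + ga g + (y + ga g) = x + y := by
    rw [show x + ga g + (y + ga g) = x + y + (ga g + ga g) by ring, I_self, add_zero]
  change cf g (cf h M) x y = cf (h + g) M x y
  simp only [cf, e1, e2, e3, add_dot, sg_add]
  rw [show x + ga g + ga h = x + (ga h + ga g) by ring,
    show y + ga g + ga h = y + (ga h + ga g) by ring]
  ring

/-- Fourier coefficients of a matrix -/
def mu (p q : I) (M : Mat) : ℝ := ∑ x, sg (dot q x) * M x (x + p)

theorem mu_cj (p q : I) (g : V) (M : Mat) :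
    mu p q (cj g M) = sg (dot q (ga g) + dot (gb g) p) * mu p q M := by
  change mu p q (cf g M) = _
  simp only [mu, cf, Finset.mul_sum]
  rw [← Equiv.sum_comp (Equiv.addRight (ga g)) (fun x => _ * (sg (dot q x) * M x (x + p)))]
  refine Finset.sum_congr rfl fun x _ => ?_
  have e : x + (x + p) = p := by rw [← add_assoc, I_self, zero_add]
  have e2 : sg (dot q (ga g)) * sg (dot q (ga g)) = 1 := by
    rw [← sg_add]; rcases z2 (dot q (ga g)) with h | h <;> rw [h] <;> exact sg_zero
  simp only [Equiv.coe_addRight, e, dot_add, sg_add]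
  rw [show x + p + ga g = x + ga g + p by ring]
  linear_combination -(sg (dot q x) * sg (dot (gb g) p) * M (x + ga g) (x + ga g + p)) * e2

theorem mu_inv (p x : I) (M : Mat) : ∑ q, sg (dot q x) * mu p q M = 4 * M x (x + p) := by
  have h : ∀ x y : I, ∑ q, sgz (dot q x) * sgz (dot q y) = if y = x then 4 else 0 := by decide
  have h' : ∀ y : I, ∑ q, sg (dot q x) * sg (dot q y) = if y = x then 4 else 0 := by
    intro y
    unfold sg
    exact_mod_cast h x y
  simp only [mu, Finset.mul_sum, ← mul_assoc]
  rw [Finset.sum_comm]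
  simp only [← Finset.sum_mul, h']
  simp

theorem scalar_of_mu (M : Mat) (h : ∀ p q : I, (p, q) ≠ 0 → mu p q M = 0) :
    ∃ c : ℝ, M = c • (1 : Mat) := by
  refine ⟨mu 0 0 M / 4, ?_⟩
  ext x y
  have := mu_inv (x + y) x M
  rw [← add_assoc, I_self, zero_add] at this
  by_cases e : x = y
  · subst e
    rw [I_self, Finset.sum_eq_single 0 (fun q _ hq => by
      rw [h 0 q (fun e => hq (congrArg Prod.snd e)), mul_zero]) (by simp)] at this
    simp [dot] at this ⊢
    linarith
  · have hp : x + y ≠ 0 := fun e' => e (by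
      rw [← add_zero x, ← e', ← add_assoc, I_self, zero_add])
    rw [Finset.sum_eq_zero (fun q _ => by
      rw [h _ q (fun e => hp (congrArg Prod.fst e)), mul_zero])] at this
    simp [one_apply, e]
    linarith

variable {N : ℕ}

/-- the space -/
abbrev Y (N : ℕ) := Sph (Fin 4) N

theorem acS_acS (g h : V) (y : Y N) : acS g (acS h y) = acS (g + h) y :=
  Subtype.ext (act_act g h y.1)

theorem acS_zero (y : Y N) : acS 0 y = y := Subtype.ext (act_zero y.1)

theorem cont_acS (g : V) : Continuous (acS g : Y N → Y N) := by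
  have : Continuous (act g : Amb (Fin 4) N → Amb (Fin 4) N) := by unfold act; fun_prop
  exact (this.comp continuous_subtype_val).subtype_mk _

/-- the ring of continuous equivariant matrix functions -/
def R (N : ℕ) : Subring (Y N → Mat) where
  carrier := {f | Continuous f ∧ ∀ g y, f (acS g y) = cj g (f y)}
  mul_mem' ha hb := ⟨ha.1.mul hb.1, fun g y => by simp [ha.2, hb.2]⟩
  one_mem' := ⟨continuous_const, fun g y => by simp⟩
  add_mem' ha hb := ⟨ha.1.add hb.1, fun g y => by simp [ha.2, hb.2]⟩
  zero_mem' := ⟨continuous_const, fun g y => by simp⟩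
  neg_mem' ha := ⟨ha.1.neg, fun g y => by simp [ha.2]⟩

/-- any `k` equivariant functions are simultaneously scalar somewhere -/
theorem exists_scalar (k : ℕ) (hN : 16 * k ≤ N) (f : Fin k → R N) :
    ∃ y, ∀ i, ∃ c : ℝ, (f i).1 y = c • (1 : Mat) := by
  let J := Fin k × {pq : I × I // pq ≠ 0}
  have hJ : Fintype.card J ≤ N := by
    have : Fintype.card {pq : I × I // pq ≠ 0} ≤ 16 :=
      (Fintype.card_subtype_le _).trans (by decide)
    simp only [J, Fintype.card_prod, Fintype.card_fin]
    nlinarith
  obtain ⟨y, hy⟩ := bu hJ (fun j => ![j.2.1.2.1, j.2.1.2.2, j.2.1.1.1, j.2.1.1.2])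
    (fun j e => j.2.2 (Prod.ext (Prod.ext (congrFun e 2) (congrFun e 3))
      (Prod.ext (congrFun e 0) (congrFun e 1))))
    (fun j y => mu j.2.1.1 j.2.1.2 ((f j.1).1 y))
    (fun j => by
      have := (f j.1).2.1
      unfold mu
      fun_prop)
    (fun j i y => by
      rw [(f j.1).2.2, mu_cj]
      congr 2
      fin_cases i <;> simp [dot, ga, gb])
  exact ⟨y, fun i => scalar_of_mu _ fun p q h => hy (i, ⟨(p, q), h⟩)⟩

/-- equivariant extension of `s • M` -/
noncomputable def Th (s : C(Y N, ℝ)) (M : Mat) : R N :=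
  ⟨fun y => ∑ g : V, s (acS g y) • cj g M,
    continuous_finsetSum _ fun g _ => (s.continuous.comp (cont_acS g)).smul continuous_const,
    fun h y => by
      rw [map_sum, ← Equiv.sum_comp (Equiv.addRight h)]
      refine Finset.sum_congr rfl fun g _ => ?_
      rw [cj_smul, cj_cj, acS_acS, Equiv.coe_addRight, add_assoc, add_self, add_zero]⟩

/-- aligned functions -/
def Al (s s' : C(Y N, ℝ)) : Prop := ∀ y g g', g ≠ g' → s (acS g y) * s' (acS g' y) = 0

theorem Al.symm {s s' : C(Y N, ℝ)} (h : Al s s') : Al s' s :=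
  fun y g g' e => by rw [mul_comm]; exact h y g' g e.symm

theorem Al.mul {s s' : C(Y N, ℝ)} (h : Al s s') (a b : C(Y N, ℝ)) : Al (s * a) (s' * b) :=
  fun y g g' e => by
    simp only [ContinuousMap.mul_apply]
    linear_combination a (acS g y) * b (acS g' y) * h y g g' e

theorem Th_mul {s s' : C(Y N, ℝ)} (h : Al s s') (M M' : Mat) :
    Th s M * Th s' M' = Th (s * s') (M * M') := by
  refine Subtype.ext (funext fun y => ?_)
  change (∑ g : V, s (acS g y) • cj g M) * (∑ g : V, s' (acS g y) • cj g M') =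
    ∑ g : V, (s * s') (acS g y) • cj g (M * M')
  rw [Finset.sum_mul_sum]
  refine Finset.sum_congr rfl fun g _ => ?_
  rw [Finset.sum_eq_single g (fun g' _ e => by
    rw [smul_mul_smul_comm, h y g g' e.symm, zero_smul]) (by simp), smul_mul_smul_comm, map_mul]
  rfl

theorem Th_add (s s' : C(Y N, ℝ)) (M : Mat) : Th (s + s') M = Th s M + Th s' M := by
  refine Subtype.ext (funext fun y => ?_)
  change (∑ g : V, (s + s') (acS g y) • cj g M) =
    (∑ g : V, s (acS g y) • cj g M) + ∑ g : V, s' (acS g y) • cj g M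
  simp [add_smul, Finset.sum_add_distrib]

theorem Th_zero (M : Mat) : Th (0 : C(Y N, ℝ)) M = 0 := by
  refine Subtype.ext (funext fun y => ?_)
  change (∑ g : V, (0 : C(Y N, ℝ)) (acS g y) • cj g M) = 0
  simp

theorem Th_zero' (s : C(Y N, ℝ)) : Th s 0 = 0 := by
  refine Subtype.ext (funext fun y => ?_)
  change (∑ g : V, s (acS g y) • cj g 0) = 0
  simp

theorem Th_at {s : C(Y N, ℝ)} (h : Al s s) (M : Mat) {y : Y N} (hy : s y ≠ 0) :
    (Th s M).1 y = s y • M := by
  change (∑ g : V, s (acS g y) • cj g M) = _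
  rw [Finset.sum_eq_single 0 (fun g _ e => ?_) (by simp), acS_zero, cj_zero]
  have := h y g 0 e
  rw [acS_zero] at this
  rw [(mul_eq_zero.1 this).resolve_right hy, zero_smul]

/-- a finite partition of unity by functions with small support -/
theorem exists_part (N : ℕ) : ∃ (m : ℕ) (t : Fin m → C(Y N, ℝ)), ∑ v, t v = 1 ∧
    ∀ u v, t u * t v = 0 ∨ Al (t u) (t v) := by
  have : CompactSpace (Y N) := isCompact_iff_compactSpace.1 isCompact_Sph
  obtain ⟨A, -, hA, hc⟩ := finite_cover_balls_of_compact
    (isCompact_univ (X := Y N)) (e := 1 / 2) (by norm_num)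
  obtain ⟨m, c, -, rfl⟩ := hA.fin_param
  let φ : Fin m → Y N → ℝ := fun v y => max 0 (1 / 2 - dist y (c v))
  have hφ : ∀ v, Continuous (φ v) := fun v => by fun_prop
  have hpos : ∀ y, 0 < ∑ v, φ v y := by
    intro y
    obtain ⟨_, ⟨v, rfl⟩, hv⟩ := Set.mem_iUnion₂.1 (hc (Set.mem_univ y))
    refine Finset.sum_pos' (fun v _ => le_max_left _ _) ⟨v, Finset.mem_univ _, ?_⟩
    exact lt_max_of_lt_right (sub_pos.2 hv)
  let t : Fin m → C(Y N, ℝ) := fun v => ⟨fun y => φ v y / ∑ v, φ v y,
    (hφ v).div (continuous_finsetSum _ fun v _ => hφ v) fun y => (hpos y).ne'⟩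
  have ht : ∀ v y, t v y ≠ 0 → dist y (c v) < 1 / 2 := by
    intro v y h
    by_contra h'
    apply h
    change φ v y / _ = 0
    rw [show φ v y = 0 from max_eq_left (by linarith), zero_div]
  refine ⟨m, t, ?_, fun u v => ?_⟩
  · ext y
    rw [ContinuousMap.sum_apply]
    change ∑ v, φ v y / ∑ v, φ v y = 1
    rw [← Finset.sum_div, div_self (hpos y).ne']
  · by_cases h : t u * t v = 0
    · exact Or.inl h
    refine Or.inr fun y g g' e => ?_
    obtain ⟨z, hz⟩ := DFunLike.ne_iff.1 h
    have hz := mul_ne_zero_iff.1 hz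
    by_contra h0
    have h0 := mul_ne_zero_iff.1 h0
    have hg : g' + g ≠ 0 := fun e' => e (by
      rw [← zero_add g', ← add_self g, add_assoc, add_comm g g', e', add_zero])
    have d : 2 ≤ dist (acS g y) (acS g' y) := by
      have := two_le_dist hg (acS g y).2
      have e2 : acS (g' + g) (acS g y) = acS g' y := by
        rw [acS_acS, add_assoc, add_self, add_zero]
      rw [← e2]
      exact this
    have d1 := ht _ _ hz.1
    have d2 := ht _ _ hz.2
    have d3 := ht _ _ h0.1
    have d4 := ht _ _ h0.2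
    have a1 := dist_triangle_right (acS g y) z (c u)
    have a2 := dist_triangle_right z (acS g' y) (c v)
    have a3 := dist_triangle (acS g y) z (acS g' y)
    linarith

end Pool.Agent.WG
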