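import Pool.Agent.Lib.MP_edf429_lc.WG.Co

/-!
The label side: cochains on lists of signed labels `(j, s)`.
-/

namespace Pool.Agent.WG

variable {Y F : Type} [Field F]

/-- alternating cochains -/
def Alt (f : List Y → F) : Prop :=
  (∀ l l' : List Y, l.Perm l' → f l = f l') ∧ ∀ a t, f (a :: a :: t) = 0

theorem cob_perm {l l' : List Y} (h : l.Perm l') (f : List Y → F)
    (hf : ∀ l l' : List Y, l.Perm l' → f l = f l') : cob l f = cob l' f := by
  induction h generalizing f with
  | nil => rfl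
  | cons x h ih =>
    simp only [cob]
    rw [hf _ _ h, ih _ (fun l l' h => hf _ _ (h.cons x))]
  | swap x y l =>
    simp only [cob]
    have : (fun s => f (y :: x :: s)) = fun s => f (x :: y :: s) :=
      funext fun s => hf _ _ (List.Perm.swap x y s)
    rw [this]; ring
  | trans _ _ ih1 ih2 => rw [ih1 f hf, ih2 f hf]

theorem Alt.cob (h2 : (2 : F) = 0) {f : List Y → F} (h : Alt f) : Alt (fun s => cob s f) := by
  refine ⟨fun l l' hl => cob_perm hl f h.1, fun a t => ?_⟩
  simp only [WG.cob]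
  have : (fun s => f (a :: a :: s)) = fun _ => (0 : F) := funext fun s => h.2 a s
  rw [this, cob_zero, add_zero, two_eq h2]

theorem Alt.zero {f : List Y → F} (h : Alt f) {l : List Y} (hl : ¬ l.Nodup) : f l = 0 := by
  rw [List.nodup_iff_sublist] at hl
  push Not at hl
  obtain ⟨a, ha⟩ := hl
  obtain ⟨t, ht⟩ := ha.exists_perm_append
  rw [h.1 _ _ ht]
  exact h.2 a t

variable {ι J : Type} [Fintype ι] [Nonempty J] [Algebra (ZMod 2) F]

/-- action on labels -/
def tau (χ : J → ι → ZMod 2) (i : ι) (a : J × ZMod 2) : J × ZMod 2 := (a.1, a.2 + χ a.1 i)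

/-- consistent lists of labels -/
def Con (l : List (J × ZMod 2)) : Prop := ∀ a ∈ l, ∀ b ∈ l, a.1 = b.1 → a = b

/-- a chosen index -/
noncomputable def pk (l : List (J × ZMod 2)) : J := Classical.epsilon fun j => j ∈ l.map Prod.fst

open Classical in
/-- the sign at the chosen index -/
noncomputable def sn (l : List (J × ZMod 2)) : ZMod 2 := if (pk l, 1) ∈ l then 1 else 0

/-- the linear form -/
noncomputable def ell (χ : J → ι → ZMod 2) (w : ι → F) (j : J) : F :=
  ∑ i, w i * algebraMap (ZMod 2) F (χ j i)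

/-- contracting homotopy for `θ` -/
noncomputable def hh (χ : J → ι → ZMod 2) (w : ι → F) (f : List (J × ZMod 2) → F)
    (l : List (J × ZMod 2)) : F :=
  (ell χ w (pk l) ^ 2)⁻¹ * ∑ i, w i * algebraMap (ZMod 2) F (χ (pk l) i) *
    (algebraMap (ZMod 2) F (sn (l.map (tau χ i))) * f (l.map (tau χ i)))

omit [Fintype ι] [Nonempty J] in
theorem tau_tau (χ : J → ι → ZMod 2) (i : ι) (a : J × ZMod 2) : tau χ i (tau χ i a) = a := by
  refine Prod.ext rfl ?_
  simp only [tau]
  generalize χ a.1 i = c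
  generalize a.2 = b
  revert b c; decide

omit [Fintype ι] [Nonempty J] in
theorem tau_comm (χ : J → ι → ZMod 2) (i j : ι) (a : J × ZMod 2) :
    tau χ i (tau χ j a) = tau χ j (tau χ i a) := by
  refine Prod.ext rfl ?_
  simp only [tau]; ring

omit [Fintype ι] in
theorem pk_tau (χ : J → ι → ZMod 2) (i : ι) (l : List (J × ZMod 2)) :
    pk (l.map (tau χ i)) = pk l := by
  unfold pk
  rw [List.map_map]
  rfl

theorem pk_perm {l l' : List (J × ZMod 2)} (h : l.Perm l') : pk l = pk l' := by
  unfold pk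
  congr 1
  funext j
  exact propext (h.map _).mem_iff

theorem sn_perm {l l' : List (J × ZMod 2)} (h : l.Perm l') : sn l = sn l' := by
  unfold sn
  rw [pk_perm h]
  by_cases h1 : (pk l', 1) ∈ l
  · rw [if_pos h1, if_pos (h.mem_iff.1 h1)]
  · rw [if_neg h1, if_neg (fun h2 => h1 (h.mem_iff.2 h2))]

omit [Fintype ι] [Nonempty J] in
theorem Con.tau (χ : J → ι → ZMod 2) (i : ι) {l : List (J × ZMod 2)} (h : Con l) :
    Con (l.map (tau χ i)) := by
  intro a ha b hb e
  obtain ⟨a, ha', rfl⟩ := List.mem_map.1 ha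
  obtain ⟨b, hb', rfl⟩ := List.mem_map.1 hb
  rw [h a ha' b hb' e]

theorem sn_eq {l : List (J × ZMod 2)} (h : Con l) {s : ZMod 2} (hs : (pk l, s) ∈ l) :
    sn l = s := by
  unfold sn
  split_ifs with h1
  · exact congrArg Prod.snd (h _ h1 _ hs rfl)
  · have : s = 0 ∨ s = 1 := by clear hs; revert s; decide
    rcases this with rfl | rfl
    · rfl
    · exact absurd hs h1

omit [Fintype ι] in
theorem sn_tau (χ : J → ι → ZMod 2) (i : ι) {l : List (J × ZMod 2)} (h : Con l) (hl : l ≠ []) :
    sn (l.map (tau χ i)) = sn l + χ (pk l) i := by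
  obtain ⟨a, ha⟩ := List.exists_mem_of_ne_nil l hl
  have : pk l ∈ l.map Prod.fst :=
    Classical.epsilon_spec (p := fun j => j ∈ l.map Prod.fst) ⟨a.1, List.mem_map_of_mem ha⟩
  obtain ⟨⟨j, s⟩, hb, e⟩ := List.mem_map.1 this
  obtain rfl : j = pk l := e
  rw [sn_eq h hb]
  refine sn_eq (h.tau χ i) ?_
  rw [pk_tau]
  exact List.mem_map.2 ⟨_, hb, rfl⟩

theorem Alt.hh (χ : J → ι → ZMod 2) (w : ι → F) {f : List (J × ZMod 2) → F} (h : Alt f) :
    Alt (hh χ w f) := by
  refine ⟨fun l l' hl => ?_, fun a t => ?_⟩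
  · unfold WG.hh
    rw [pk_perm hl]
    congr 1
    refine Finset.sum_congr rfl fun i _ => ?_
    rw [sn_perm (hl.map _), h.1 _ _ (hl.map _)]
  · unfold WG.hh
    rw [Finset.sum_eq_zero, mul_zero]
    intro i _
    rw [List.map_cons, List.map_cons, h.2]; ring

theorem th_hh (h2 : (2 : F) = 0) (χ : J → ι → ZMod 2) (w : ι → F) (hw : ∀ j, ell χ w j ≠ 0)
    (f : List (J × ZMod 2) → F) (hf : ∀ l, Con l → th (tau χ) w f l = 0) (f0 : f [] = 0)
    (l : List (J × ZMod 2)) (hl : Con l) : th (tau χ) w (hh χ w f) l = f l := by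
  by_cases hn : l = []
  · subst hn; simp [th, f0, two_eq h2]
  set x : ι → F := fun i => w i * algebraMap (ZMod 2) F (χ (pk l) i) with hx
  have e : th (tau χ) w (hh χ w f) l = (ell χ w (pk l) ^ 2)⁻¹ *
      ((∑ i, x i * algebraMap (ZMod 2) F (sn (l.map (tau χ i))) *
        th (tau χ) w f (l.map (tau χ i))) +
       (∑ i, ∑ m, x i * x m * (f ((l.map (tau χ i)).map (tau χ m)) + f l)) +
       (∑ i, x i) * (∑ i, x i) * f l) := by
    simp only [th, hh, pk_tau, Finset.mul_sum, Finset.sum_mul, ← Finset.sum_add_distrib]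
    rw [Finset.sum_comm]
    refine Finset.sum_congr rfl fun i _ => Finset.sum_congr rfl fun m _ => ?_
    have e1 : (l.map (tau χ m)).map (tau χ i) = (l.map (tau χ i)).map (tau χ m) := by
      simp only [List.map_map]; exact List.map_congr_left fun y _ => tau_comm χ i m y
    rw [e1, sn_tau χ m (hl.tau χ i) (by simpa using hn), pk_tau, map_add]
    simp only [hx]
    linear_combination -((ell χ w (pk l) ^ 2)⁻¹ * w i * algebraMap (ZMod 2) F (χ (pk l) i) *
      w m * algebraMap (ZMod 2) F (χ (pk l) m) * f l) * h2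
  rw [e, Finset.sum_eq_zero (fun i _ => by rw [hf _ (hl.tau χ i), mul_zero]), sym_sum h2]
  · have : ∑ i, x i = ell χ w (pk l) := rfl
    rw [this]
    have := hw (pk l)
    field_simp
    ring
  · intro i m
    have e1 : (l.map (tau χ m)).map (tau χ i) = (l.map (tau χ i)).map (tau χ m) := by
      simp only [List.map_map]; exact List.map_congr_left fun y _ => tau_comm χ i m y
    rw [e1]; ring
  · intro i
    have : (l.map (tau χ i)).map (tau χ i) = l := by
      simp only [List.map_map]
      exact (List.map_congr_left fun y _ => tau_tau χ i y).trans (List.map_id _)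
    rw [this, two_eq h2, mul_zero]

open Classical in
/-- the obstruction cochains -/
noncomputable def ph (χ : J → ι → ZMod 2) (w : ι → F) : ℕ → List (J × ZMod 2) → F
  | 0 => fun l => cob l (fun s => if s = [] then 1 else 0)
  | k + 1 => fun l => cob l (hh χ w (ph χ w k))

theorem ph_alt (h2 : (2 : F) = 0) (χ : J → ι → ZMod 2) (w : ι → F) (k : ℕ) :
    Alt (ph χ w k) := by
  induction k with
  | zero =>
    refine Alt.cob h2 ⟨fun l l' h => ?_, fun a t => by simp⟩
    have : l = [] ↔ l' = [] := ⟨fun e => by subst e; exact h.nil_eq.symm,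
      fun e => by subst e; exact h.eq_nil⟩
    simp only [this]
  | succ k ih => exact Alt.cob h2 (ih.hh χ w)

theorem ph_nil (χ : J → ι → ZMod 2) (w : ι → F) (k : ℕ) : ph χ w k [] = 0 := by
  cases k <;> rfl

theorem ph_th (h2 : (2 : F) = 0) (χ : J → ι → ZMod 2) (w : ι → F) (hw : ∀ j, ell χ w j ≠ 0)
    (k : ℕ) (l : List (J × ZMod 2)) (hl : Con l) : th (tau χ) w (ph χ w k) l = 0 := by
  induction k generalizing l with
  | zero =>
    unfold ph
    rw [th_cob, ← cob_zero l]
    refine cob_congr _ _ _ fun s _ => ?_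
    simp [th, two_eq h2]
  | succ k ih =>
    unfold ph
    rw [th_cob, cob_congr l _ (ph χ w k) (fun s hs => th_hh h2 χ w hw _ ih (ph_nil χ w k) s
      (fun a ha b hb => hl a (hs a ha) b (hs b hb)))]
    cases k <;> exact cob_cob h2 _ _

theorem ph_top [Fintype J] (h2 : (2 : F) = 0) (χ : J → ι → ZMod 2) (w : ι → F) (k : ℕ)
    (l : List (J × ZMod 2)) (hl : Con l) (hc : Fintype.card J < l.length) : ph χ w k l = 0 := by
  refine (ph_alt h2 χ w k).zero fun hn => ?_
  have : (l.map Prod.fst).Nodup := hn.map_on fun a ha b hb e => hl a ha b hb e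
  have := this.length_le_card
  simp at this
  omega

/-- No equivariant labelling of a highly connected family of lists. -/
theorem noLab [Fintype J] (χ : J → ι → ZMod 2) (hχ : ∀ j, χ j ≠ 0)
    (T : ι → Y → Y) (hT : ∀ i y, T i (T i y) = y)
    (hc : ∀ i j y, T i (T j y) = T j (T i y)) (N : ℕ) (hN : Fintype.card J ≤ N)
    (Good : ℕ → List Y → Prop) (hG : ∀ k i l, Good k l → Good k (l.map (T i)))
    (hlen : ∀ l, Good N l → l.length = N + 1)
    (HH : ∀ (F : Type) [Field F], (2 : F) = 0 → ∃ H : ℕ → (List Y → F) → List Y → F,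
      (∀ k f g l, H k (fun s => f s + g s) l = H k f l + H k g l) ∧
      (∀ k < N, ∀ f l, Good k l → H k (fun s => cob s f) l + cob l (H k f) = f l) ∧
      (∀ k < N, ∀ f, (∀ l, Good (k + 1) l → f l = 0) → ∀ l, Good k l → H k f l = 0))
    (p : Y) (hp : Good 0 [p]) (lab : Y → J × ZMod 2)
    (he : ∀ k l, Good k l → ∀ y ∈ l, ∀ i, lab (T i y) = tau χ i (lab y))
    (hcon : ∀ k l, Good k l → Con (l.map lab)) : False := by
  classical
  let K := FractionRing (MvPolynomial ι (ZMod 2))
  have h2 : (2 : K) = 0 := by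
    have : (2 : K) = algebraMap (ZMod 2) K 2 := (map_ofNat _ 2).symm
    rw [this, show (2 : ZMod 2) = 0 from rfl, map_zero]
  let w : ι → K := fun i => algebraMap (MvPolynomial ι (ZMod 2)) K (MvPolynomial.X i)
  have hw : ∀ j, ell χ w j ≠ 0 := by
    intro j e
    have e1 : ell χ w j = algebraMap (MvPolynomial ι (ZMod 2)) K
        (∑ i, MvPolynomial.X i * MvPolynomial.C (χ j i)) := by
      rw [map_sum]
      refine Finset.sum_congr rfl fun i _ => ?_
      rw [map_mul, IsScalarTower.algebraMap_apply (ZMod 2) (MvPolynomial ι (ZMod 2)) K]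
      rfl
    rw [e1, map_eq_zero_iff _ (IsFractionRing.injective _ _)] at e
    refine hχ j (funext fun i => ?_)
    have := congrArg (MvPolynomial.eval (Pi.single i (1 : ZMod 2) : ι → ZMod 2)) e
    simpa [Pi.single_apply] using this
  obtain ⟨H, a1, a2, a3⟩ := HH K h2
  have hg : ∀ k l, Good k l → th T w (fun l => hh χ w (ph χ w k) (l.map lab)) l =
      ph χ w k (l.map lab) := by
    intro k l hl
    rw [← th_hh h2 χ w hw _ (ph_th h2 χ w hw k) (ph_nil χ w k) _ (hcon k l hl)]
    refine Finset.sum_congr rfl fun i _ => ?_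
    have : (l.map (T i)).map lab = (l.map lab).map (tau χ i) := by
      simp only [List.map_map]; exact List.map_congr_left fun y hy => he k l hl y hy i
    simp only [this]
  obtain ⟨l, hl, hne⟩ := core h2 T hT hc w N Good hG H a1 a2 a3
    (fun k l => ph χ w k (l.map lab)) (fun k l => hh χ w (ph χ w k) (l.map lab))
    (fun k l => cob_map lab l _) hg p hp (by simp [ph, cob])
  exact hne (ph_top h2 χ w N _ (hcon N l hl) (by rw [List.length_map, hlen l hl]; omega))

end Pool.Agent.WG
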