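import Pool.Agent.Lib.MP_edf429_lc.WG.Grp

/-!
A finitely generated perfect group of equivariant matrix functions in which any `k` elements lie
in a proper normal subgroup, and a finitely presented perfect cover of it.
-/

namespace Pool.Agent.WG

open Matrix
open scoped commutatorElement

section Ring
variable {S : Type} [Ring S]

/-- the unipotent unit `1 + A` -/
def un (A : S) (h : A * A = 0) : Sˣ :=
  ⟨1 + A, 1 - A, by rw [show (1 + A) * (1 - A) = 1 - A * A by noncomm_ring, h, sub_zero],
    by rw [show (1 - A) * (1 + A) = 1 - A * A by noncomm_ring, h, sub_zero]⟩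

theorem comm_un {A B : S} (hA : A * A = 0) (hB : B * B = 0) (h : B * A = 0) :
    ((⁅un A hA, un B hB⁆ : Sˣ) : S) = 1 + A * B := by
  change (1 + A) * (1 + B) * (1 - A) * (1 - B) = 1 + A * B
  have e : (1 + A) * (1 + B) * (1 - A) * (1 - B) = 1 + A * B - (A * A) * (1 - B)
      - (1 + A) * (B * A) * (1 - B) - (1 + A) * (B * B) := by noncomm_ring
  rw [e, hA, hB, h]; simp

end Ring

variable {N : ℕ}

/-- the units that are central at `y` -/
def ev (y : Y N) : (R N)ˣ →* Matˣ :=
  Units.map ((Pi.evalRingHom (fun _ : Y N => Mat) y).comp (R N).subtype).toMonoidHom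

theorem single_sq {i j : I} (h : i ≠ j) : (single i j (1 : ℝ) : Mat) * single i j 1 = 0 :=
  single_mul_single_of_ne _ _ _ _ h.symm _

theorem main (k : ℕ) : ∃ (Γ α : Type) (_ : Group Γ) (_ : Finite α) (x : α → Γ),
    (∀ a, x a ∈ (commutator (FreeGroup α)).map (FreeGroup.lift x)) ∧
    ∀ g : Fin k → Γ, ∃ K : Subgroup Γ, K.Normal ∧ (∀ i, g i ∈ K) ∧ ∃ a, x a ∉ K := by
  obtain ⟨m, t, h1, ha⟩ := exists_part (16 * k)
  have hs : ∀ v, Al (t v) (t v) := fun v => (ha v v).elim (fun h y g g' _ => by
    have := DFunLike.congr_fun h (acS g y)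
    rw [mul_self_eq_zero.1 this, zero_mul]) id
  have sq : ∀ v (i j : I), i ≠ j →
      Th (t v) (single i j 1) * Th (t v) (single i j 1) = 0 := fun v i j h => by
    rw [Th_mul (hs v), single_sq h, Th_zero']
  let x : Fin m × {p : I × I // p.1 ≠ p.2} → (R (16 * k))ˣ :=
    fun a => un _ (sq a.1 _ _ a.2.2)
  refine ⟨_, _, inferInstance, inferInstance, x, ?_, fun g => ?_⟩
  · rintro ⟨v, ⟨i, j⟩, hij⟩
    set K := (commutator _).map (FreeGroup.lift x)
    obtain ⟨l, hil, hlj⟩ : ∃ l, i ≠ l ∧ l ≠ j := by clear hij; revert i j; decide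
    have key : ∀ U : Finset (Fin m), ∃ u ∈ K,
        (u : R (16 * k)) = 1 + Th (t v * ∑ u ∈ U, t u) (single i j 1) := by
      intro U
      induction U using Finset.induction_on with
      | empty => exact ⟨1, K.one_mem, by simp [Th_zero]⟩
      | insert b U hb ih =>
        obtain ⟨u, hu, e⟩ := ih
        rw [Finset.sum_insert hb, mul_add, Th_add]
        rcases ha v b with h | h
        · exact ⟨u, hu, by rw [e, h, Th_zero, zero_add]⟩
        · refine ⟨⁅x (v, ⟨(i, l), hil⟩), x (b, ⟨(l, j), hlj⟩)⁆ * u, K.mul_mem ?_ hu, ?_⟩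
          · refine ⟨⁅FreeGroup.of (v, ⟨(i, l), hil⟩), FreeGroup.of (b, ⟨(l, j), hlj⟩)⁆,
              Subgroup.commutator_mem_commutator trivial trivial, by simp [map_commutatorElement]⟩
          · have z : Th (t b) (single l j 1) * Th (t v) (single i l 1) = 0 := by
              rw [Th_mul h.symm, single_mul_single_of_ne _ _ _ _ (Ne.symm hij), Th_zero']
            rw [Units.val_mul, e, comm_un _ _ z,
              Th_mul h, single_mul_single_same, mul_one, add_mul, mul_add, mul_add,
              Th_mul ((hs v).mul _ _), single_sq hij, Th_zero']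
            simp only [mul_one, one_mul, add_zero]
            abel
    obtain ⟨u, hu, e⟩ := key Finset.univ
    rw [h1, mul_one] at e
    rwa [show x (v, ⟨(i, j), hij⟩) = u from Units.ext e.symm]
  · obtain ⟨y, hy⟩ := exists_scalar k le_rfl fun i => (g i : R (16 * k))
    refine ⟨(Subgroup.center _).comap (ev y), inferInstance, fun i => ?_, ?_⟩
    · obtain ⟨c, hc⟩ := hy i
      rw [Subgroup.mem_comap, Subgroup.mem_center_iff]
      intro z
      refine Units.ext ?_
      change (z : Mat) * (g i : R (16 * k)).1 y = (g i : R (16 * k)).1 y * (z : Mat)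
      rw [hc]; simp
    · obtain ⟨v, hv⟩ : ∃ v, t v y ≠ 0 := by
        by_contra h
        push Not at h
        have := DFunLike.congr_fun h1 y
        rw [ContinuousMap.sum_apply] at this
        simp [h] at this
      have hij : ((0, 0) : I) ≠ (0, 1) := by decide
      refine ⟨(v, ⟨((0, 0), (0, 1)), hij⟩), fun h => hv ?_⟩
      rw [Subgroup.mem_comap, Subgroup.mem_center_iff] at h
      have e := congrArg Units.val (h (un _ (single_sq hij.symm)))
      change (1 + single (0, 1) (0, 0) 1 : Mat) * (1 + (Th (t v) (single (0, 0) (0, 1) 1)).1 y) =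
        (1 + (Th (t v) (single (0, 0) (0, 1) 1)).1 y) * (1 + single (0, 1) (0, 0) 1) at e
      rw [Th_at (hs v) _ hv] at e
      simp only [mul_add, add_mul, mul_one, one_mul, mul_smul_comm, smul_mul_assoc,
        single_mul_single_same] at e
      have := congrFun (congrFun e (0, 0)) (0, 0)
      simpa [single_apply, hij, hij.symm] using this

/-- **Perfect finitely presented groups of arbitrarily large normal rank.** -/
theorem final (k : ℕ) : ∃ (n : ℕ) (rels : List (List (Fin n × Bool))),
    commutator (FreeGroup (Fin n) ⧸ Subgroup.normalClosure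
      {x : FreeGroup (Fin n) | ∃ r ∈ rels, x = FreeGroup.mk r}) = ⊤ ∧
    ∀ g : Fin k → FreeGroup (Fin n) ⧸ Subgroup.normalClosure
      {x : FreeGroup (Fin n) | ∃ r ∈ rels, x = FreeGroup.mk r},
      Subgroup.normalClosure (Set.range g) ≠ ⊤ := by
  obtain ⟨Γ, α, _, _, x, h1, h2⟩ := main k
  obtain ⟨n, ⟨e⟩⟩ := Finite.exists_equiv_fin α
  let φ : FreeGroup (Fin n) →* Γ := FreeGroup.lift (x ∘ e.symm)
  have h3 : ∀ a : Fin n, ∃ c ∈ commutator (FreeGroup (Fin n)), φ c = φ (FreeGroup.of a) := by
    intro a
    obtain ⟨c, hc, ec⟩ := h1 (e.symm a)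
    refine ⟨FreeGroup.map e c, ?_, ?_⟩
    · have := Subgroup.mem_map_of_mem (FreeGroup.map e) hc
      rw [commutator_def, Subgroup.map_commutator] at this
      exact Subgroup.commutator_mono le_top le_top this
    · have : φ.comp (FreeGroup.map e) = FreeGroup.lift x := by ext; simp [φ]
      rw [← this] at ec
      simpa [φ] using ec
  choose c hc ec using h3
  refine ⟨n, List.ofFn fun a => (FreeGroup.of a * (c a)⁻¹).toWord, ?_⟩
  set L := Subgroup.normalClosure {x : FreeGroup (Fin n) |
    ∃ r ∈ List.ofFn fun a => (FreeGroup.of a * (c a)⁻¹).toWord, x = FreeGroup.mk r} with hL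
  have hk : L ≤ φ.ker := by
    refine Subgroup.normalClosure_le_normal ?_
    rintro _ ⟨r, hr, rfl⟩
    obtain ⟨a, rfl⟩ := List.mem_ofFn.1 hr
    simp [FreeGroup.mk_toWord, ec]
  refine ⟨eq_top_iff.2 fun z _ => ?_, fun g hg => ?_⟩
  · obtain ⟨z, rfl⟩ := QuotientGroup.mk'_surjective L z
    induction z using FreeGroup.induction_on with
    | C1 => simp
    | of a =>
      have : QuotientGroup.mk' L (FreeGroup.of a) = QuotientGroup.mk' L (c a) := by
        rw [← mul_inv_eq_one, ← map_inv, ← map_mul]
        exact (QuotientGroup.eq_one_iff _).2 (Subgroup.subset_normalClosure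
          ⟨_, List.mem_ofFn.2 ⟨a, rfl⟩, FreeGroup.mk_toWord.symm⟩)
      rw [this]
      have := Subgroup.mem_map_of_mem (QuotientGroup.mk' L) (hc a)
      rw [commutator_def, Subgroup.map_commutator] at this
      exact Subgroup.commutator_mono le_top le_top this
    | inv_of a h => rw [map_inv]; exact Subgroup.inv_mem _ (h trivial)
    | mul a b ha hb => rw [map_mul]; exact Subgroup.mul_mem _ (ha trivial) (hb trivial)
  · let ψ := QuotientGroup.lift L φ hk
    obtain ⟨K, hK, hgK, a, ha⟩ := h2 fun i => ψ (g i)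
    have : Subgroup.normalClosure (Set.range g) ≤ K.comap ψ :=
      Subgroup.normalClosure_le_normal (by rintro _ ⟨i, rfl⟩; exact hgK i)
    have := this (hg ▸ Subgroup.mem_top (QuotientGroup.mk (FreeGroup.of (e a))))
    apply ha
    simpa [ψ, φ] using this

end Pool.Agent.WG
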