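import Pool.Agent.Lib.MP_edf429_lc.WG.Lab

/-!
Borsuk-Ulam theorem for characters of `(ℤ/2)^ι` on a product of spheres (sup norm).
-/

namespace Pool.Agent.WG

/-- sign character -/
def sgz (s : ZMod 2) : ℤ := if s = 0 then 1 else -1

/-- real sign character -/
def sg (s : ZMod 2) : ℝ := (sgz s : ℤ)

theorem sg_add (s t : ZMod 2) : sg (s + t) = sg s * sg t := by
  have : ∀ s t : ZMod 2, sgz (s + t) = sgz s * sgz t := by decide
  unfold sg; rw [this]; push_cast; rfl

@[simp] theorem sg_zero : sg 0 = 1 := by simp [sg, sgz]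

@[simp] theorem sg_one : sg 1 = -1 := by
  have : sgz 1 = -1 := by decide
  simp [sg, this]

theorem z2 (s : ZMod 2) : s = 0 ∨ s = 1 := by revert s; decide

theorem abs_sg (s : ZMod 2) : |sg s| = 1 := by
  rcases z2 s with rfl | rfl <;> simp

variable {ι : Type} [Fintype ι] {N : ℕ}

/-- ambient space -/
abbrev Amb (ι : Type) (N : ℕ) := ι → Fin (N + 1) → ℝ

/-- product of sup-norm spheres -/
def Sph (ι : Type) (N : ℕ) : Set (Amb ι N) :=
  {y | (∀ i n, |y i n| ≤ 1) ∧ ∀ i, ∃ n, |y i n| = 1}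

/-- sign action -/
def act (g : ι → ZMod 2) (y : Amb ι N) : Amb ι N := fun i n => sg (g i) * y i n

omit [Fintype ι] in
theorem act_act (g h : ι → ZMod 2) (y : Amb ι N) : act g (act h y) = act (g + h) y := by
  funext i n; simp [act, sg_add, mul_assoc]

omit [Fintype ι] in
theorem act_zero (y : Amb ι N) : act 0 y = y := by
  funext i n; simp [act]

omit [Fintype ι] in
theorem add_self (g : ι → ZMod 2) : g + g = 0 := by
  funext i; rcases z2 (g i) with h | h <;> simp [h]; rfl

omit [Fintype ι] in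
theorem act_mem (g : ι → ZMod 2) {y : Amb ι N} (h : y ∈ Sph ι N) : act g y ∈ Sph ι N := by
  refine ⟨fun i n => ?_, fun i => ?_⟩
  · simpa [act, abs_mul, abs_sg] using h.1 i n
  · obtain ⟨n, hn⟩ := h.2 i
    exact ⟨n, by simpa [act, abs_mul, abs_sg] using hn⟩

theorem dist_le {y z : Amb ι N} {d : ℝ} (hd : 0 ≤ d) :
    dist y z ≤ d ↔ ∀ i n, |y i n - z i n| ≤ d := by
  simp only [dist_pi_le_iff hd, Real.dist_eq]

theorem dist_act (g : ι → ZMod 2) (y z : Amb ι N) : dist (act g y) (act g z) ≤ dist y z := by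
  rw [dist_le dist_nonneg]
  intro i n
  simp only [act, ← mul_sub, abs_mul, abs_sg, one_mul]
  exact (dist_le dist_nonneg).1 le_rfl i n

theorem two_le_dist {g : ι → ZMod 2} (hg : g ≠ 0) {y : Amb ι N} (h : y ∈ Sph ι N) :
    2 ≤ dist y (act g y) := by
  obtain ⟨i, hi⟩ := Function.ne_iff.1 hg
  obtain ⟨n, hn⟩ := h.2 i
  have := (dist_le (y := y) (z := act g y) dist_nonneg).1 le_rfl i n
  have e : g i = 1 := (z2 (g i)).resolve_left hi
  have e2 : y i n - act g y i n = 2 * y i n := by simp [act, e]; ring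
  rw [e2, abs_mul, hn] at this
  simpa using this

theorem isCompact_Sph : IsCompact (Sph ι N) := by
  refine Metric.isCompact_of_isClosed_isBounded ?_ ?_
  · have : Sph ι N = (⋂ i, ⋂ n, {y : Amb ι N | |y i n| ≤ 1}) ∩
        ⋂ i, ⋃ n, {y : Amb ι N | |y i n| = 1} := by
      ext y; simp [Sph]
    rw [this]
    refine IsClosed.inter (isClosed_iInter fun i => isClosed_iInter fun n =>
      isClosed_le (by fun_prop) continuous_const)
      (isClosed_iInter fun i => isClosed_iUnion_of_finite fun n =>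
        isClosed_eq (by fun_prop) continuous_const)
  · refine (Metric.isBounded_closedBall (x := 0) (r := 1)).subset fun y hy => ?_
    rw [Metric.mem_closedBall, dist_le zero_le_one]
    simpa using hy.1

/-- the steps of the contraction of the `k`-th stage inside the next one -/
noncomputable def uu (M k r : ℕ) (y : Amb ι N) : Amb ι N := fun i n =>
  if n.val = k + 1 then min 1 ((r : ℝ) / M) else min 1 (2 - (r : ℝ) / M) * y i n

/-- points of the `k`-th stage -/
def St (k : ℕ) (y : Amb ι N) : Prop := y ∈ Sph ι N ∧ ∀ i (n : Fin (N + 1)), k < n.val → y i n = 0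

/-- small lists in the `k`-th stage -/
def Gd (M k : ℕ) (l : List (Amb ι N)) : Prop :=
  k ≤ N ∧ l.length = k + 1 ∧ (∀ y ∈ l, St k y) ∧ ∀ y ∈ l, ∀ z ∈ l, dist y z ≤ (k : ℝ) / M

omit [Fintype ι] in
theorem uu_St {M k r : ℕ} (hM : 0 < M) (hk : k < N) (hr : r ≤ 2 * M) {y : Amb ι N}
    (h : St k y) : St (k + 1) (uu M k r y) := by
  have hM' : (0 : ℝ) < M := by exact_mod_cast hM
  have h0 : (0 : ℝ) ≤ r / M := by positivity
  have h1 : (r : ℝ) / M ≤ 2 := by
    rw [div_le_iff₀ hM']; exact_mod_cast hr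
  have a0 : 0 ≤ min 1 (2 - (r : ℝ) / M) := le_min zero_le_one (by linarith)
  have b0 : 0 ≤ min 1 ((r : ℝ) / M) := le_min zero_le_one h0
  refine ⟨⟨fun i n => ?_, fun i => ?_⟩, fun i n hn => ?_⟩
  · unfold uu
    split_ifs
    · rw [abs_of_nonneg b0]; exact min_le_left _ _
    · rw [abs_mul, abs_of_nonneg a0]
      exact mul_le_one₀ (min_le_left _ _) (abs_nonneg _) (h.1.1 i n)
  · rcases le_total ((r : ℝ) / M) 1 with h2 | h2
    · obtain ⟨n, hn⟩ := h.1.2 i
      refine ⟨n, ?_⟩
      have : n.val ≠ k + 1 := fun e => by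
        rw [h.2 i n (by omega)] at hn; simp at hn
      unfold uu
      rw [if_neg this, min_eq_left (by linarith), one_mul, hn]
    · refine ⟨⟨k + 1, by omega⟩, ?_⟩
      unfold uu
      rw [if_pos rfl, min_eq_left h2, abs_one]
  · unfold uu
    rw [if_neg (by omega), h.2 i n (by omega), mul_zero]

theorem uu_dist {M k r r' : ℕ} (hM : 0 < M) (hr : r ≤ 2 * M) (h1 : r ≤ r' + 1) (h2 : r' ≤ r + 1)
    {y z : Amb ι N} (hz : z ∈ Sph ι N) (hd : dist y z ≤ (k : ℝ) / M) :
    dist (uu M k r y) (uu M k r' z) ≤ ((k + 1 : ℕ) : ℝ) / M := by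
  have hM' : (0 : ℝ) < M := by exact_mod_cast hM
  have hk : (0 : ℝ) ≤ k / M := by positivity
  have e : ((k + 1 : ℕ) : ℝ) / M = k / M + 1 / M := by push_cast; ring
  have hrr : |(r : ℝ) / M - r' / M| ≤ 1 / M := by
    rw [← sub_div, abs_div, abs_of_pos hM']
    gcongr
    have a : (r : ℝ) ≤ r' + 1 := by exact_mod_cast h1
    have b : (r' : ℝ) ≤ r + 1 := by exact_mod_cast h2
    rw [abs_le]; constructor <;> linarith
  have h3 : (r : ℝ) / M ≤ 2 := by
    rw [div_le_iff₀ hM']; exact_mod_cast hr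
  have a0 : 0 ≤ min 1 (2 - (r : ℝ) / M) := le_min zero_le_one (by linarith)
  rw [dist_le (by positivity), e]
  intro i n
  unfold uu
  split_ifs
  · have := abs_min_sub_min_le_max 1 ((r : ℝ) / M) 1 (r' / M)
    simp only [sub_self, abs_zero] at this
    rw [max_eq_right (abs_nonneg _)] at this
    linarith
  · have := abs_min_sub_min_le_max 1 (2 - (r : ℝ) / M) 1 (2 - r' / M)
    simp only [sub_self, abs_zero] at this
    rw [max_eq_right (abs_nonneg _), show 2 - (r : ℝ) / M - (2 - r' / M) =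
      -((r : ℝ) / M - r' / M) by ring, abs_neg] at this
    set a := min 1 (2 - (r : ℝ) / M)
    set b := min 1 (2 - (r' : ℝ) / M)
    have a1 : a ≤ 1 := min_le_left _ _
    have d1 := (dist_le hk).1 hd i n
    have e2 : a * y i n - b * z i n = a * (y i n - z i n) + (a - b) * z i n := by ring
    rw [e2]
    refine (abs_add_le _ _).trans (add_le_add ?_ ?_)
    · rw [abs_mul, abs_of_nonneg a0]
      exact (mul_le_of_le_one_left (abs_nonneg _) a1).trans d1
    · rw [abs_mul]
      exact (mul_le_of_le_one_right (abs_nonneg _) (hz.1 i n)).trans (this.trans hrr)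

theorem exists_H {M : ℕ} (hM : 0 < M) (F : Type) [Field F] (h2 : (2 : F) = 0) :
    ∃ H : ℕ → (List (Amb ι N) → F) → List (Amb ι N) → F,
      (∀ k f g l, H k (fun s => f s + g s) l = H k f l + H k g l) ∧
      (∀ k < N, ∀ f l, Gd M k l → H k (fun s => cob s f) l + cob l (H k f) = f l) ∧
      (∀ k < N, ∀ f, (∀ l, Gd M (k + 1) l → f l = 0) → ∀ l, Gd M k l → H k f l = 0) := by
  have hM' : (0 : ℝ) < M := by exact_mod_cast hM
  refine ⟨fun k f l => (∑ r ∈ Finset.range (2 * M), pri (uu M k r) (uu M k (r + 1)) l f) +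
    f (uu M k (2 * M) 0 :: l.map (uu M k (2 * M))), fun k f g l => ?_, fun k hk f l hl => ?_,
    fun k hk f hf l hl => ?_⟩
  · simp only [pri_add, Finset.sum_add_distrib]; ring
  · have tel : ∀ m, ∑ r ∈ Finset.range m, (f (l.map (uu M k r)) + f (l.map (uu M k (r + 1))))
        = f (l.map (uu M k 0)) + f (l.map (uu M k m)) := by
      intro m
      induction m with
      | zero => simp [two_eq h2]
      | succ m ih =>
        rw [Finset.sum_range_succ, ih]
        linear_combination f (l.map (uu M k m)) * h2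
    have e0 : l.map (uu M k 0) = l := by
      refine (List.map_congr_left fun y hy => ?_).trans (List.map_id _)
      funext i n
      unfold uu
      split_ifs with h
      · rw [id, (hl.2.2.1 y hy).2 i n (by omega)]; simp
      · simp
    have t := tel (2 * M)
    rw [e0, ← Finset.sum_congr rfl (fun r _ => pri_cob h2 (uu M k r) (uu M k (r + 1)) l f),
      Finset.sum_add_distrib] at t
    rw [cob_add, cob_sum]
    simp only [cob]
    rw [cob_map]
    linear_combination t + (f (l.map (uu M k (2 * M))) +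
      cob l (fun s => f (uu M k (2 * M) 0 :: s.map (uu M k (2 * M))))) * h2
  · have e : ∀ y : Amb ι N, uu M k (2 * M) y = uu M k (2 * M) 0 := by
      intro y
      funext i n
      have : (2 : ℝ) - ((2 * M : ℕ) : ℝ) / M = 0 := by push_cast; field_simp; ring
      simp [uu, -Nat.cast_mul, this]
    obtain ⟨y0, hy0⟩ := List.exists_mem_of_length_pos (l := l) (by rw [hl.2.1]; omega)
    beta_reduce
    rw [Finset.sum_eq_zero, hf, add_zero]
    · have mem : ∀ y ∈ uu M k (2 * M) 0 :: l.map (uu M k (2 * M)), y = uu M k (2 * M) y0 := by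
        intro y hy
        rcases List.mem_cons.1 hy with rfl | hy
        · exact (e y0).symm
        · obtain ⟨z, -, rfl⟩ := List.mem_map.1 hy
          rw [e z, e y0]
      refine ⟨hk, by simp [hl.2.1], fun y hy => ?_, fun y hy z hz => ?_⟩
      · rw [mem y hy]; exact uu_St hM hk le_rfl (hl.2.2.1 y0 hy0)
      · rw [mem y hy, mem z hz, dist_self]; positivity
    · intro r hr
      have hr := Finset.mem_range.1 hr
      refine pri_zero _ _ _ _ fun s hs hm => hf s ⟨hk, by rw [hs, hl.2.1], fun y hy => ?_,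
        fun y hy z hz => ?_⟩
      · obtain ⟨x, hx, rfl | rfl⟩ := hm y hy
        · exact uu_St hM hk (by omega) (hl.2.2.1 x hx)
        · exact uu_St hM hk (by omega) (hl.2.2.1 x hx)
      · obtain ⟨x, hx, rfl | rfl⟩ := hm y hy <;> obtain ⟨x', hx', rfl | rfl⟩ := hm z hz <;>
          exact uu_dist hM (by omega) (by omega) (by omega) (hl.2.2.1 x' hx').1
            (hl.2.2.2 x hx x' hx')

/-- the action on the product of spheres -/
def acS (g : ι → ZMod 2) (y : Sph ι N) : Sph ι N := ⟨act g y, act_mem g y.2⟩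

/-- base point -/
def pt (ι : Type) (N : ℕ) : Amb ι N := fun _ n => if n = 0 then 1 else 0

omit [Fintype ι] in
theorem pt_St : St 0 (pt ι N) := by
  refine ⟨⟨fun i n => ?_, fun i => ⟨0, by simp [pt]⟩⟩, fun i n hn => ?_⟩
  · unfold pt; split_ifs <;> simp
  · unfold pt; rw [if_neg]; rintro rfl; simp at hn

/-- **Borsuk-Ulam theorem for characters.** -/
theorem bu [DecidableEq ι] {J : Type} [Fintype J] (hN : Fintype.card J ≤ N) (χ : J → ι → ZMod 2)
    (hχ : ∀ j, χ j ≠ 0) (f : J → Sph ι N → ℝ) (hc : ∀ j, Continuous (f j))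
    (he : ∀ j i y, f j (acS (Pi.single i 1) y) = sg (χ j i) * f j y) : ∃ y, ∀ j, f j y = 0 := by
  classical
  by_contra hn
  push Not at hn
  have : CompactSpace (Sph ι N) := isCompact_iff_compactSpace.1 isCompact_Sph
  have : Nonempty (Sph ι N) := ⟨⟨_, pt_St.1⟩⟩
  have : Nonempty J := ⟨(hn (Classical.arbitrary _)).choose⟩
  let Φ : Sph ι N → J → ℝ := fun y j => f j y
  have hΦ : Continuous Φ := continuous_pi hc
  obtain ⟨y0, -, hy0⟩ := isCompact_univ.exists_isMinOn Set.univ_nonempty hΦ.norm.continuousOn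
  set μ := ‖Φ y0‖
  have hμ : 0 < μ := norm_pos_iff.2 fun e => by
    obtain ⟨j, hj⟩ := hn y0
    exact hj (congrFun e j)
  have hex : ∀ y, ∃ j, μ ≤ |f j y| := by
    intro y
    by_contra h
    push Not at h
    exact absurd (hy0 (Set.mem_univ y)) (not_le.2 ((pi_norm_lt_iff hμ).2 h))
  obtain ⟨δ, hδ, hu⟩ := Metric.uniformContinuous_iff.1
    (CompactSpace.uniformContinuous_of_continuous hΦ) μ hμ
  obtain ⟨M, hM⟩ := exists_nat_gt ((N : ℝ) / δ)
  have hM' : (0 : ℝ) < M := lt_of_le_of_lt (by positivity) hM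
  have hM0 : 0 < M := by exact_mod_cast hM'
  let jj : Sph ι N → J := fun y => Classical.epsilon fun j => μ ≤ |f j y|
  have hj : ∀ y, μ ≤ |f (jj y) y| := fun y => Classical.epsilon_spec (hex y)
  let lb : Sph ι N → J × ZMod 2 := fun y => (jj y, if 0 < f (jj y) y then 1 else 0)
  have l1 : ∀ i y, lb (acS (Pi.single i 1) y) = tau χ i (lb y) := by
    intro i y
    have e : jj (acS (Pi.single i 1) y) = jj y := by
      simp only [jj, he, abs_mul, abs_sg, one_mul]
    have h0 : f (jj y) y ≠ 0 := fun h => by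
      have := hj y; rw [h, abs_zero] at this; linarith
    refine Prod.ext e ?_
    simp only [lb, tau, e, he]
    rcases z2 (χ (jj y) i) with h | h
    · simp [h]
    · rcases lt_or_gt_of_ne h0 with h' | h'
      · simp [h, h', h'.le]
      · simp [h, h', h'.not_gt]; rfl
  have l2 : ∀ y z, dist y z < δ → (lb y).1 = (lb z).1 → lb y = lb z := by
    intro y z hd e
    have e' : jj y = jj z := e
    refine Prod.ext e ?_
    have d := (dist_le_pi_dist (Φ y) (Φ z) (jj z)).trans_lt (hu hd)
    have a := hj y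
    have b := hj z
    simp only [lb, e'] at a ⊢
    rw [Real.dist_eq, abs_lt] at d
    simp only [Φ] at d
    by_cases h1 : 0 < f (jj z) y <;> by_cases h3 : 0 < f (jj z) z <;> simp only [h1, h3]
    · rw [abs_of_pos h1] at a; rw [abs_of_nonpos (not_lt.1 h3)] at b; linarith
    · rw [abs_of_pos h3] at b; rw [abs_of_nonpos (not_lt.1 h1)] at a; linarith
  refine noLab χ hχ (fun i => act (Pi.single i 1)) (fun i y => ?_) (fun i j y => ?_) N hN (Gd M)
    (fun k i l hl => ⟨hl.1, by simpa using hl.2.1, fun y hy => ?_, fun y hy z hz => ?_⟩)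
    (fun l hl => hl.2.1) (exists_H hM0) (pt ι N) ⟨N.zero_le, rfl, by simpa using pt_St, by simp⟩
    (fun y => if h : y ∈ Sph ι N then lb ⟨y, h⟩ else Classical.arbitrary _)
    (fun k l hl y hy i => ?_) (fun k l hl a ha b hb e => ?_)
  · rw [act_act, add_self, act_zero]
  · rw [act_act, act_act, add_comm]
  · obtain ⟨x, hx, rfl⟩ := List.mem_map.1 hy
    exact ⟨act_mem _ (hl.2.2.1 x hx).1, fun i' n hn => by simp [act, (hl.2.2.1 x hx).2 i' n hn]⟩
  · obtain ⟨x, hx, rfl⟩ := List.mem_map.1 hy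
    obtain ⟨x', hx', rfl⟩ := List.mem_map.1 hz
    exact (dist_act _ _ _).trans (hl.2.2.2 x hx x' hx')
  · have h := (hl.2.2.1 y hy).1
    simp only [dif_pos h, dif_pos (act_mem _ h)]
    exact l1 i ⟨y, h⟩
  · obtain ⟨x, hx, rfl⟩ := List.mem_map.1 ha
    obtain ⟨x', hx', rfl⟩ := List.mem_map.1 hb
    have h := (hl.2.2.1 x hx).1
    have h' := (hl.2.2.1 x' hx').1
    simp only [dif_pos h, dif_pos h'] at e ⊢
    refine l2 _ _ ((hl.2.2.2 x hx x' hx').trans_lt ?_) e
    rw [div_lt_iff₀ hδ] at hM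
    rw [div_lt_iff₀ hM']
    have : (k : ℝ) ≤ N := by exact_mod_cast hl.1
    linarith

end Pool.Agent.WG
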